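import Pool.Agent.H6.GSW.XAV

/-!
# Theorem (G): the curvature of the residual at the frequencies of the optimal sum
-/

set_option autoImplicit false

open Finset Pool.Agent.H6.N4D Pool.Agent.H93 Pool.Agent.H93.GS Pool.Agent.H6.GS2

namespace Pool.Agent.H6.GSW

/-! ## the rest of the exponential -/

/-- the exponential -/
noncomputable def ei (u : ℝ) : ℂ := Complex.exp (-(u : ℂ) * Complex.I)

/-- the second order rest -/
noncomputable def rho (u : ℝ) : ℂ := ei u - 1 + u * Complex.I

lemma ei_re (u : ℝ) : (ei u).re = Real.cos u := by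
  unfold ei
  rw [← Complex.ofReal_neg, Complex.exp_ofReal_mul_I_re, Real.cos_neg]

lemma ei_im (u : ℝ) : (ei u).im = -Real.sin u := by
  unfold ei
  rw [← Complex.ofReal_neg, Complex.exp_ofReal_mul_I_im, Real.sin_neg]

lemma ei_eq (u : ℝ) : ei (2 * Real.pi * u) = ee (-u) := by
  unfold ei ee
  congr 1; push_cast; ring

lemma norm_ei (u : ℝ) : ‖ei u‖ = 1 := by
  unfold ei
  rw [← Complex.ofReal_neg]
  exact Complex.norm_exp_ofReal_mul_I _

lemma ei_sub (u v : ℝ) : ‖ei u - ei v‖ ≤ |u - v| := by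
  have h1 : ei u = ei v * Complex.exp (Complex.I * ((-(u - v) : ℝ) : ℂ)) := by
    unfold ei
    rw [← Complex.exp_add]
    congr 1; push_cast; ring
  rw [h1, show ei v * Complex.exp (Complex.I * ((-(u - v) : ℝ) : ℂ)) - ei v =
    ei v * (Complex.exp (Complex.I * ((-(u - v) : ℝ) : ℂ)) - 1) by ring, norm_mul, norm_ei,
    one_mul]
  have := Real.norm_exp_I_mul_ofReal_sub_one_le (x := -(u - v))
  rwa [Real.norm_eq_abs, abs_neg] at this

lemma ei_zero : ei 0 = 1 := by simp [ei]

lemma rho_zero : rho 0 = 0 := by simp [rho, ei_zero]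

lemma rho_lip (Y u v : ℝ) (hu : |u| ≤ Y) (hv : |v| ≤ Y) : ‖rho u - rho v‖ ≤ Y * |u - v| := by
  have hd : ∀ w : ℝ, HasDerivAt rho (-Complex.I * (ei w - 1)) w := by
    intro w
    have h1 : HasDerivAt (fun y : ℝ => (y : ℂ)) 1 w := by
      simpa using (hasDerivAt_id w).ofReal_comp
    have h2 : HasDerivAt (fun y : ℝ => -(y : ℂ) * Complex.I) (-1 * Complex.I) w :=
      (h1.neg).mul_const _
    have h3 := h2.cexp
    have h4 : HasDerivAt (fun y : ℝ => (y : ℂ) * Complex.I) (1 * Complex.I) w :=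
      h1.mul_const _
    have h5 := (h3.sub_const 1).add h4
    have h6 : Complex.exp (-(w : ℂ) * Complex.I) * (-1 * Complex.I) + 1 * Complex.I =
        -Complex.I * (ei w - 1) := by unfold ei; ring
    rw [h6] at h5
    exact h5
  have hs : Convex ℝ (Set.Icc (-Y) Y) := convex_Icc _ _
  have hb : ∀ w ∈ Set.Icc (-Y) Y, ‖-Complex.I * (ei w - 1)‖ ≤ Y := by
    intro w hw
    rw [norm_mul, norm_neg, Complex.norm_I, one_mul]
    have := ei_sub w 0
    rw [ei_zero, sub_zero] at this
    exact this.trans (abs_le.2 hw)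
  have := hs.norm_image_sub_le_of_norm_hasDerivWithin_le
    (fun w _ => (hd w).hasDerivWithinAt) hb (abs_le.1 hv) (abs_le.1 hu)
  simpa [Real.norm_eq_abs] using this

lemma rho_le (u : ℝ) : ‖rho u‖ ≤ u ^ 2 := by
  have := rho_lip |u| u 0 le_rfl (by simp)
  rw [rho_zero, sub_zero, sub_zero] at this
  rwa [← sq_abs, pow_two]

lemma rho_re (u : ℝ) : (rho u).re = Real.cos u - 1 := by
  unfold rho; simp [ei_re]

/-! ## the coordinate -/

/-- the angle -/
noncomputable def yy (N n m : ℕ) : ℝ := 2 * Real.pi * xx N n m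

lemma yy_le (N n m : ℕ) (hN : 1 ≤ N) (hm : m ∈ Ioc n (n + N)) : |yy N n m| ≤ Real.pi := by
  unfold yy
  rw [abs_mul, abs_of_pos (by positivity)]
  have := xx_le N n m hN hm
  nlinarith [Real.pi_pos]

lemma xx_piece (P L n j m m' : ℕ) (hP : 1 ≤ P) (hL : 1 ≤ L)
    (hm : m ∈ Ioc (n + j * L) (n + j * L + L)) (hm' : m' ∈ Ioc (n + j * L) (n + j * L + L)) :
    |xx (P * L) n m - xx (P * L) n m'| ≤ 1 / P := by
  have hP' : (0 : ℝ) < P := by exact_mod_cast hP
  have hL' : (0 : ℝ) < L := by exact_mod_cast hL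
  rw [mem_Ioc] at hm hm'
  have e : xx (P * L) n m - xx (P * L) n m' = ((m : ℝ) - m') / (P * L) := by
    unfold xx; push_cast; field_simp; ring
  rw [e, abs_div, abs_of_pos (show (0 : ℝ) < P * L by positivity), div_le_div_iff₀
    (by positivity) hP', one_mul, mul_comm]
  apply mul_le_mul_of_nonneg_left _ hP'.le
  rw [abs_le]
  have h1 : ((n + j * L : ℕ) : ℝ) < m := by exact_mod_cast hm.1
  have h2 : (m : ℝ) ≤ ((n + j * L + L : ℕ) : ℝ) := by exact_mod_cast hm.2
  have h3 : ((n + j * L : ℕ) : ℝ) < m' := by exact_mod_cast hm'.1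
  have h4 : (m' : ℝ) ≤ ((n + j * L + L : ℕ) : ℝ) := by exact_mod_cast hm'.2
  push_cast at h1 h2 h3 h4
  constructor <;> linarith

lemma yy_piece (P L n j m m' : ℕ) (hP : 1 ≤ P) (hL : 1 ≤ L)
    (hm : m ∈ Ioc (n + j * L) (n + j * L + L)) (hm' : m' ∈ Ioc (n + j * L) (n + j * L + L)) :
    |yy (P * L) n m - yy (P * L) n m'| ≤ 2 * Real.pi / P := by
  have := xx_piece P L n j m m' hP hL hm hm'
  have e : yy (P * L) n m - yy (P * L) n m' =
      2 * Real.pi * (xx (P * L) n m - xx (P * L) n m') := by unfold yy; ring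
  rw [e, abs_mul, abs_of_pos (by positivity : (0:ℝ) < 2 * Real.pi)]
  calc _ ≤ 2 * Real.pi * (1 / P) := mul_le_mul_of_nonneg_left this (by positivity)
    _ = _ := by ring

/-! ## the condition of the first order -/

lemma ac_bound (q N n : ℕ) (G ψ : ℕ → ℂ) (A : ℝ) 
    (h : ∀ m ∈ Ioc n (n + N), ‖ψ m‖ ≤ A) :
    ‖ac q N n (fun m => G m * ψ m)‖ ≤ A * ar q N n (fun m => ‖G m‖) := by
  rw [← ar_mul]
  refine (norm_ac_le _ _ _ _).trans (ar_mono _ _ _ ?_)
  intro m hm _
  rw [norm_mul, mul_comm]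
  exact mul_le_mul_of_nonneg_right (h m hm) (norm_nonneg _)

lemma expand (q N n : ℕ) (G : ℕ → ℂ) (y : ℕ → ℝ) (t : ℝ) :
    ac q N n (fun m => G m * ei (t * y m)) = ac q N n G -
      t * (Complex.I * ac q N n (fun m => G m * y m)) +
      ac q N n (fun m => G m * rho (t * y m)) := by
  rw [← ac_mul, ← ac_mul, ← ac_sub, ← ac_add]
  apply ac_congr
  intro m _ _
  unfold rho
  push_cast
  ring

lemma first_order (th : ℝ) (q N n : ℕ) (G : ℕ → ℂ) (y : ℕ → ℝ)
    (h0 : ac q N n G = th) (h1 : ar q N n (fun m => ‖G m‖) ≤ 2)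
    (hy : ∀ m ∈ Ioc n (n + N), |y m| ≤ Real.pi)
    (h2 : ∀ t : ℝ, ‖ac q N n (fun m => G m * ei (t * y m))‖ ≤ th) :
    (ac q N n (fun m => G m * y m)).im = 0 := by
  set I := (ac q N n (fun m => G m * y m)).im with hI
  have key : ∀ t : ℝ, t * I ≤ 20 * t ^ 2 := by
    intro t
    have h3 := h2 t
    have h4 := (Complex.re_le_norm _).trans h3
    rw [expand, h0] at h4
    have h5 : (Complex.I * ac q N n (fun m => G m * y m)).re = -I := by
      simp [Complex.mul_re, hI]
    rw [Complex.add_re, Complex.sub_re, Complex.re_ofReal_mul, h5, Complex.ofReal_re] at h4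
    have h6 : ‖ac q N n (fun m => G m * rho (t * y m))‖ ≤ 20 * t ^ 2 := by
      have h7 := ac_bound q N n G (fun m => rho (t * y m)) (10 * t ^ 2) (by
        intro m hm
        refine (rho_le _).trans ?_
        have h8 := hy m hm
        have h9 : y m ^ 2 ≤ 10 := by
          have h10 : Real.pi < 3.15 := Real.pi_lt_d2
          have h11 := abs_le.1 h8
          nlinarith
        rw [mul_pow]
        nlinarith [sq_nonneg t])
      refine h7.trans ?_
      nlinarith [sq_nonneg t, ar_nonneg q N n (F := fun m => ‖G m‖) (fun _ => norm_nonneg _)]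
    have h12 := (abs_le.1 ((Complex.abs_re_le_norm _).trans h6)).1
    linarith
  have h13 := key (I / 40)
  nlinarith [sq_nonneg I]

/-! ## the residual near a frequency -/

lemma rs_shift (lam : ℕ → ℝ) (q N n : ℕ) (g : Ex) (β t : ℝ) (b : ℤ) (hq : 1 ≤ q) (hN : 1 ≤ N) :
    rs lam q N n g (β + b / q + t / N) = ee (-(t / N * (n + (N : ℝ) / 2))) *
      ac q N n (fun m => ((lam m : ℂ) - g.f m) * ee (-(β * m)) * ei (t * yy N n m)) := by
  have hN' : (0 : ℝ) < N := by exact_mod_cast hN
  have hq' : (0 : ℝ) < q := by exact_mod_cast hq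
  unfold rs
  rw [← ac_mul]
  apply ac_congr
  intro m _ hd
  obtain ⟨k, rfl⟩ := hd
  have e1 : t * yy N n (q * k) = 2 * Real.pi * (t * xx N n (q * k)) := by unfold yy; ring
  rw [e1, ei_eq]
  have e2 : -((β + b / q + t / N) * ((q * k : ℕ) : ℝ)) = -(t / N * (n + (N : ℝ) / 2)) +
      (-(β * ((q * k : ℕ) : ℝ)) + (-(t * xx N n (q * k)) + ((-(b * k) : ℤ) : ℝ))) := by
    unfold xx
    push_cast
    field_simp
    ring
  rw [e2, ee_add, ee_add, ee_add, ee_int]
  ring

lemma n1 (th : ℝ) (h : 0 < th) (h1 : th ≤ 1) : (th / 1200) ^ 2 ≤ 1 := by nlinarith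

lemma n2 (th : ℝ) (h : 0 < th) (h1 : th ≤ 1) : th * th / (1680 * 4800) ≤ 1 / 2 := by
  rw [div_le_iff₀ (by norm_num)]; nlinarith

lemma pi_sq_le : Real.pi ^ 2 ≤ 10 := by
  have h1 : Real.pi < 3.15 := Real.pi_lt_d2
  nlinarith [Real.pi_pos]

lemma yy_sq (N n m : ℕ) (hN : 1 ≤ N) (hm : m ∈ Ioc n (n + N)) : yy N n m ^ 2 ≤ 10 := by
  have h1 := yy_le N n m hN hm
  have h2 : |yy N n m| ^ 2 ≤ Real.pi ^ 2 := by gcongr
  rw [sq_abs] at h2
  exact h2.trans pi_sq_le

lemma n7 (s y : ℝ) (hy : y ^ 2 ≤ 10) : (s * y) ^ 2 ≤ 10 * s ^ 2 := by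
  rw [mul_pow, mul_comm]
  exact mul_le_mul_of_nonneg_right hy (sq_nonneg s)

lemma n8 (s : ℝ) (h : |s| < 3 / 4) : s ^ 2 ≤ 9 / 16 := by
  rw [← sq_abs]; nlinarith [abs_nonneg s]

lemma n9 (u th a : ℝ) (hu : 0 ≤ u) (hth : 0 < th) (h5 : a ≤ 20 * u * (th / 4800)) :
    10 * u * (3 * (th / 1200) + th / 1680) + 6 * a ≤ u * (th * (6 / 100)) := by
  nlinarith [mul_nonneg hu hth.le]

lemma n10 (u a : ℝ) (hu : 0 ≤ u) (h : 8 / 100 ≤ a) : u * (64 / 100) ≤ 8 * u * a := by
  nlinarith

lemma n11 (u a : ℝ) (hu : 0 ≤ u) (h : a ≤ 875 / 10000) : 20 * u * a ≤ u * (175 / 100) := by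
  nlinarith

lemma n12 (u v : ℝ) (hu : 0 ≤ u) (hv : 0 ≤ v) : 2 * Real.pi * (u * v) ≤ 7 * u * v := by
  have h1 : Real.pi < 3.15 := Real.pi_lt_d2
  nlinarith [mul_nonneg hu hv]

lemma n13 (th s e a b : ℝ) (hth : 0 < th) (hs : 0 ≤ s)
    (h1 : e ≤ a + b) (h2 : a ≤ 4 * s * (3 * (th / 1200) + th / 1680) +
      6 * (7 * s * (th / 4800))) (h3 : b ≤ 1 * (7 * s * (th / 1680))) :
    e ≤ th * s / 20 := by
  nlinarith [mul_nonneg hs hth.le]

/-- numbers for large `s` -/
lemma num_large (th a ε : ℝ) (hth : 0 < th) (ha : 3 / 4 ≤ a) (hε : ε ≤ th / 50) :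
    th * (1 / (2 * a)) + ε ≤ th * (1 - 2 / 5 * min 1 (a ^ 2)) := by
  have ha0 : 0 < a := by linarith
  have key : 1 / (2 * a) + 1 / 50 ≤ 1 - 2 / 5 * min 1 (a ^ 2) := by
    rcases le_or_gt 1 a with h | h
    · have h1 : 1 / (2 * a) ≤ 1 / 2 := by
        apply one_div_le_one_div_of_le <;> linarith
      have h2 : min 1 (a ^ 2) ≤ 1 := min_le_left _ _
      linarith
    · have h1 : 1 / (2 * a) ≤ 2 / 3 - 2 / 3 * (a - 3 / 4) := by
        rw [div_le_iff₀ (by linarith)]
        nlinarith
      have h2 : min 1 (a ^ 2) ≤ a ^ 2 := min_le_right _ _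
      have h3 : a ^ 2 ≤ 9 / 16 + 7 / 4 * (a - 3 / 4) := by nlinarith
      linarith
  nlinarith

/-- numbers for small `s` -/
lemma num_small (th s a b : ℝ) (hth : 0 < th) (hs : |s| ≤ 3 / 4)
    (h1 : a ≤ th * (1 - 58 / 100 * s ^ 2)) (h2 : -(th * (1 - 58 / 100 * s ^ 2)) ≤ a)
    (h3 : |b| ≤ th * |s| / 20) : √(a ^ 2 + b ^ 2) ≤ th * (1 - 2 / 5 * min 1 (s ^ 2)) := by
  have hs2 : s ^ 2 ≤ 9 / 16 := by
    rw [← sq_abs]; nlinarith [abs_nonneg s]
  have hs0 : 0 ≤ s ^ 2 := sq_nonneg s
  have hm : min 1 (s ^ 2) = s ^ 2 := min_eq_right (by linarith)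
  rw [hm]
  apply Real.sqrt_le_iff.2
  constructor
  · apply mul_nonneg hth.le; linarith
  · have h4 : a ^ 2 ≤ (th * (1 - 58 / 100 * s ^ 2)) ^ 2 := sq_le_sq' h2 h1
    have h5 : b ^ 2 ≤ th ^ 2 * s ^ 2 / 400 := by
      have : |b| ^ 2 ≤ (th * |s| / 20) ^ 2 := by gcongr
      rw [sq_abs, div_pow, mul_pow, sq_abs] at this
      linarith
    have h6 : (1 - 58 / 100 * s ^ 2) ^ 2 + s ^ 2 / 400 ≤ (1 - 2 / 5 * s ^ 2) ^ 2 := by
      nlinarith
    have hth2 : 0 ≤ th ^ 2 := sq_nonneg th
    calc a ^ 2 + b ^ 2 ≤ (th * (1 - 58 / 100 * s ^ 2)) ^ 2 + th ^ 2 * s ^ 2 / 400 :=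
          add_le_add h4 h5
      _ = th ^ 2 * ((1 - 58 / 100 * s ^ 2) ^ 2 + s ^ 2 / 400) := by ring
      _ ≤ th ^ 2 * (1 - 2 / 5 * s ^ 2) ^ 2 := mul_le_mul_of_nonneg_left h6 hth2
      _ = _ := by ring

theorem pf_CUR (hU : T_UNI) (hG : T_GEX) (hB : T_BNM) : T_CUR := by
  intro th Lam hth hth1 hLam
  obtain ⟨C, hC⟩ := exists_nat_ge (1680 / th)
  obtain ⟨P₀, hP₀⟩ := exists_nat_ge (4800 * Lam / th)
  have hC1 : (1 : ℝ) ≤ C := by
    refine le_trans ?_ hC
    rw [le_div_iff₀ hth]; linarith
  have hP1 : (1 : ℝ) ≤ P₀ := by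
    refine le_trans ?_ hP₀
    rw [le_div_iff₀ hth]; linarith
  refine ⟨P₀, C, (th / 1200) ^ 2, by exact_mod_cast hP1, by exact_mod_cast hC1, by positivity,
    n1 th hth hth1, ?_⟩
  intro lam q P L n g hlam hq hCq hP hg hgap i hi s b hs
  have hC1' : 1 ≤ C := by exact_mod_cast hC1
  have hP1' : 1 ≤ P := le_trans (by exact_mod_cast hP1) hP
  have hqL : q ≤ L := le_trans (Nat.le_mul_of_pos_left q hC1') hCq
  have hL1 : 1 ≤ L := hq.trans hqL
  have hLN : L ≤ P * L := Nat.le_mul_of_pos_left L hP1'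
  have hqN : q ≤ P * L := hqL.trans hLN
  have hN1 : 1 ≤ P * L := hq.trans hqN
  have hL0 : (0 : ℝ) < L := by exact_mod_cast hL1
  have hP0 : (0 : ℝ) < P := by exact_mod_cast hP1'
  have hq0 : (0 : ℝ) < q := by exact_mod_cast hq
  have hN0 : (0 : ℝ) < ((P * L : ℕ) : ℝ) := by exact_mod_cast hN1
  have bqL : (q : ℝ) / L ≤ th / 1680 := by
    have h1 : (C : ℝ) * q ≤ L := by exact_mod_cast hCq
    have h2 : 1680 / th * q ≤ L := le_trans (mul_le_mul_of_nonneg_right hC hq0.le) h1
    rw [div_le_iff₀ hL0]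
    rw [div_mul_eq_mul_div, div_le_iff₀ hth] at h2
    linarith
  have bP : 1 / (P : ℝ) ≤ th / (4800 * Lam) := by
    have h1 : 4800 * Lam / th ≤ P := hP₀.trans (by exact_mod_cast hP)
    rw [div_le_div_iff₀ hP0 (by positivity)]
    rw [div_le_iff₀ hth] at h1
    linarith
  have bP' : 1 / (P : ℝ) ≤ th / 4800 := by
    refine bP.trans ?_
    apply div_le_div_of_nonneg_left hth.le (by norm_num) (by linarith)
  have bqN : (q : ℝ) / ((P * L : ℕ) : ℝ) ≤ th / 1680 := by
    refine le_trans ?_ bqL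
    apply div_le_div_of_nonneg_left hq0.le hL0
    exact_mod_cast hLN
  have hsq : √((th / 1200) ^ 2 + 0) = th / 1200 := by
    rw [add_zero, Real.sqrt_sq (by positivity)]
  have hpi : Real.pi < 3.15 := Real.pi_lt_d2
  have hpi0 : 0 < Real.pi := Real.pi_pos
  set N := P * L with hN
  set β := g.a i with hβ
  have hcn : ‖g.c i‖ ≠ 0 := norm_ne_zero_iff.2 (hg.nz i hi)
  have hcn' : (‖g.c i‖ : ℂ) ≠ 0 := by exact_mod_cast hcn
  set z : ℂ := g.c i / ‖g.c i‖ with hz
  have hz1 : ‖z‖ = 1 := by
    rw [hz, norm_div, Complex.norm_real, norm_norm, div_self hcn]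
  have hzz : (starRingEnd ℂ) z * z = 1 := by
    rw [mul_comm, Complex.mul_conj, Complex.normSq_eq_norm_sq, hz1]; simp
  have hR0 : rs lam q N n g β = th * z := by
    rw [hg.kt i hi, hz]; ring
  set F : ℕ → ℂ := fun m => ((lam m : ℂ) - g.f m) * ee (-(β * m)) with hF
  set G : ℕ → ℂ := fun m => (starRingEnd ℂ) z * F m with hGd
  have hac : ac q N n G = th := by
    rw [hGd, ac_mul]
    have : ac q N n F = th * z := hR0
    rw [this]
    calc (starRingEnd ℂ) z * (th * z) = th * ((starRingEnd ℂ) z * z) := by ring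
      _ = th := by rw [hzz, mul_one]
  have hrep : ∀ t : ℝ, ∀ b : ℤ, ‖rs lam q N n g (β + b / q + t / N)‖ =
      ‖ac q N n (fun m => G m * ei (t * yy N n m))‖ := by
    intro t b
    rw [rs_shift lam q N n g β t b hq hN1, norm_mul, norm_ee, one_mul]
    have e : (fun m => G m * ei (t * yy N n m)) =
        fun m => (starRingEnd ℂ) z * (F m * ei (t * yy N n m)) := by
      funext m; rw [hGd]; ring
    rw [e, ac_mul, norm_mul, Complex.norm_conj, hz1, one_mul]
  have hle : ∀ t : ℝ, ‖ac q N n (fun m => G m * ei (t * yy N n m))‖ ≤ th := by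
    intro t
    rw [← hrep t 0]
    exact hg.df _
  have hGn : ar q N n (fun m => ‖G m‖) ≤ 2 := by
    have h1 := (hB th lam q N n g hth hlam hq hN1 hg).2.2.2.2
    have h2 : (fun m => ‖G m‖) = fun m => ‖(lam m : ℂ) - g.f m‖ := by
      funext m
      rw [hGd, hF]
      simp only
      rw [norm_mul, norm_mul, Complex.norm_conj, hz1, norm_ee, one_mul, mul_one]
    rw [h2]
    refine h1.trans ?_
    have : (q : ℝ) / N ≤ 1 := bqN.trans (by linarith)
    linarith
  have hUNI : ∀ (ψ : ℕ → ℂ) (A δ : ℝ), (∀ m ∈ Ioc n (n + N), ‖ψ m‖ ≤ A) → 0 ≤ δ →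
      (∀ j < P, ∀ m ∈ Ioc (n + j * L) (n + j * L + L),
        ∀ m' ∈ Ioc (n + j * L) (n + j * L + L), ‖ψ m - ψ m'‖ ≤ δ) →
      ‖ac q N n (fun m => G m * ψ m) - th * ac q N n ψ‖ ≤
        A * (3 * (th / 1200) + th / 1680) + 6 * δ := by
    intro ψ A δ h1 h2 h3
    have h4 := hU th lam q P L n ((th / 1200) ^ 2) 0 β g hth hth1 hlam hq hqL hP1'
      (by positivity) (n1 th hth hth1) le_rfl hth.le hg hgap
      (by rw [hR0, norm_mul, hz1, Complex.norm_real, Real.norm_eq_abs, abs_of_pos hth]; simp)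
      ψ A δ h1 h2 h3
    rw [← hN, hsq, hR0] at h4
    have e : ac q N n (fun m => G m * ψ m) - th * ac q N n ψ = (starRingEnd ℂ) z *
        (ac q N n (fun m => ((lam m : ℂ) - g.f m) * ee (-(β * m)) * ψ m) -
          th * z * ac q N n ψ) := by
      have e1 : (fun m => G m * ψ m) = fun m => (starRingEnd ℂ) z *
          (((lam m : ℂ) - g.f m) * ee (-(β * m)) * ψ m) := by
        funext m; rw [hGd, hF]; ring
      rw [e1, ac_mul, mul_sub]
      congr 1
      calc (th : ℂ) * ac q N n ψ = ((starRingEnd ℂ) z * z) * (th * ac q N n ψ) := by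
            rw [hzz, one_mul]
        _ = _ := by ring
    rw [e, norm_mul, Complex.norm_conj, hz1, one_mul]
    refine h4.trans ?_
    have hA : 0 ≤ A := by
      have : n + 1 ∈ Ioc n (n + N) := by rw [mem_Ioc]; omega
      exact (norm_nonneg _).trans (h1 _ this)
    have : A * (3 * (th / 1200) + (q : ℝ) / L) ≤ A * (3 * (th / 1200) + th / 1680) := by
      gcongr
    linarith
  rw [hrep s b]
  rcases le_or_gt (3 / 4) |s| with hs1 | hs1
  · -- large `s`
    have hs0 : 0 < |s| := by linarith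
    have h1 := hUNI (fun m => ei (s * yy N n m)) 1 (|s| * (2 * Real.pi / P))
      (fun m _ => le_of_eq (norm_ei _)) (by positivity) (by
        intro j hj m hm m' hm'
        refine (ei_sub _ _).trans ?_
        rw [← mul_sub, abs_mul]
        exact mul_le_mul_of_nonneg_left (yy_piece P L n j m m' hP1' hL1 hm hm') (abs_nonneg _))
    have h2 : ‖ac q N n (fun m => ei (s * yy N n m))‖ ≤ 1 / (2 * |s|) := by
      have e : (fun m : ℕ => ei (s * yy N n m)) =
          fun m : ℕ => ee (s / N * (n + (N : ℝ) / 2)) * ee (-(s / N) * m) := by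
        funext m
        have e1 : s * yy N n m = 2 * Real.pi * (s * xx N n m) := by unfold yy; ring
        rw [e1, ei_eq, ← ee_add]
        congr 1
        unfold xx
        field_simp
        ring
      rw [e, ac_mul, norm_mul, norm_ee, one_mul]
      have hnd : nd (q * (-(s / N))) = q * |s| / N := by
        have e2 : |(q : ℝ) * (-(s / N))| = q * |s| / N := by
          rw [mul_neg, abs_neg, abs_mul, abs_div, abs_of_pos hq0, abs_of_pos hN0]; ring
        rw [nd_eq_abs, e2]
        rw [e2, div_le_iff₀ hN0]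
        have h3 : (q : ℝ) ≤ th / 1680 * L := by rwa [div_le_iff₀ hL0] at bqL
        have h4 : Lam ≤ P * (th / 4800) := by
          have := bP
          rw [div_le_div_iff₀ hP0 (by positivity)] at this
          linarith
        calc q * |s| ≤ (th / 1680 * L) * (P * (th / 4800)) :=
              mul_le_mul h3 (hs.trans h4) (abs_nonneg _) (by positivity)
          _ = (P * L) * (th * th / (1680 * 4800)) := by ring
          _ ≤ (P * L) * (1 / 2) := by
              apply mul_le_mul_of_nonneg_left (n2 th hth hth1) (by positivity)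
          _ = 1 / 2 * N := by rw [hN]; push_cast; ring
      have h5 := hG q N n (-(s / N)) hq hN1 (by rw [hnd]; positivity)
      rw [hnd] at h5
      refine h5.trans (le_of_eq ?_)
      field_simp
    have h6 : ‖ac q N n (fun m => G m * ei (s * yy N n m))‖ ≤
        th * (1 / (2 * |s|)) + (1 * (3 * (th / 1200) + th / 1680) +
          6 * (|s| * (2 * Real.pi / P))) := by
      have h7 : ‖(th : ℂ) * ac q N n (fun m => ei (s * yy N n m))‖ ≤ th * (1 / (2 * |s|)) := by
        rw [norm_mul, Complex.norm_real, Real.norm_eq_abs, abs_of_pos hth]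
        exact mul_le_mul_of_nonneg_left h2 hth.le
      calc _ = ‖(ac q N n (fun m => G m * ei (s * yy N n m)) -
            th * ac q N n (fun m => ei (s * yy N n m))) +
            th * ac q N n (fun m => ei (s * yy N n m))‖ := by rw [sub_add_cancel]
        _ ≤ _ := (norm_add_le _ _).trans (by linarith)
    refine h6.trans ?_
    rw [← sq_abs s]
    apply num_large th |s| _ hth hs1
    have h8 : |s| * (2 * Real.pi / P) ≤ Lam * (2 * 3.15 * (th / (4800 * Lam))) := by
      apply mul_le_mul hs _ (by positivity) (by linarith)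
      calc 2 * Real.pi / P = 2 * Real.pi * (1 / P) := by ring
        _ ≤ 2 * 3.15 * (th / (4800 * Lam)) := by
            apply mul_le_mul (by linarith) bP (by positivity) (by norm_num)
    have h9 : Lam * (2 * 3.15 * (th / (4800 * Lam))) = 6.3 * th / 4800 := by
      field_simp
      norm_num
    rw [h9] at h8
    linarith
  · -- small `s`
    have hs2 : s ^ 2 ≤ 9 / 16 := n8 s hs1
    have hs0 : 0 ≤ s ^ 2 := sq_nonneg s
    have hfo := first_order th q N n G (yy N n) hac hGn (fun m hm => yy_le N n m hN1 hm) hle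
    set E := ac q N n (fun m => G m * ei (s * yy N n m)) with hE
    -- the real part
    have hre : |E.re - (th + th * ar q N n (fun m => Real.cos (s * yy N n m) - 1))| ≤
        s ^ 2 * (th * (6 / 100)) := by
      have h1 := hUNI (fun m => rho (s * yy N n m)) (10 * s ^ 2) (20 * s ^ 2 / P)
        (by
          intro m hm
          exact (rho_le _).trans (n7 _ _ (yy_sq N n m hN1 hm)))
        (by positivity)
        (by
          intro j hj m hm m' hm'
          have hj1 : ∀ m ∈ Ioc (n + j * L) (n + j * L + L), |s * yy N n m| ≤ |s| * Real.pi := by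
            intro m hm
            rw [abs_mul]
            apply mul_le_mul_of_nonneg_left _ (abs_nonneg _)
            apply yy_le N n m hN1
            rw [mem_Ioc] at hm ⊢
            have : (j + 1) * L ≤ P * L := Nat.mul_le_mul_right L hj
            rw [← hN, add_mul, one_mul] at this
            omega
          refine (rho_lip (|s| * Real.pi) _ _ (hj1 m hm) (hj1 m' hm')).trans ?_
          rw [← mul_sub, abs_mul]
          have h3 := yy_piece P L n j m m' hP1' hL1 hm hm'
          calc |s| * Real.pi * (|s| * |yy N n m - yy N n m'|) ≤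
              |s| * Real.pi * (|s| * (2 * Real.pi / P)) := by gcongr
            _ = |s| ^ 2 * (2 * Real.pi ^ 2) / P := by ring
            _ ≤ |s| ^ 2 * 20 / P := by gcongr; linarith [pi_sq_le]
            _ = 20 * s ^ 2 / P := by rw [sq_abs]; ring)
      have h2 := (Complex.abs_re_le_norm _).trans h1
      have h3 : E.re = th + (ac q N n (fun m => G m * rho (s * yy N n m))).re := by
        rw [hE, expand, hac, Complex.add_re, Complex.sub_re, Complex.re_ofReal_mul,
          Complex.ofReal_re]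
        have : (Complex.I * ac q N n (fun m => G m * yy N n m)).re = 0 := by
          rw [Complex.mul_re, Complex.I_re, Complex.I_im, hfo]; ring
        rw [this]; ring
      have h4 : (ac q N n (fun m => rho (s * yy N n m))).re =
          ar q N n (fun m => Real.cos (s * yy N n m) - 1) := by
        rw [ac_re]
        exact ar_congr _ _ _ fun m _ _ => rho_re _
      rw [Complex.sub_re, Complex.re_ofReal_mul, h4] at h2
      rw [h3]
      have e : th + (ac q N n (fun m => G m * rho (s * yy N n m))).re -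
          (th + th * ar q N n (fun m => Real.cos (s * yy N n m) - 1)) =
          (ac q N n (fun m => G m * rho (s * yy N n m))).re -
          th * ar q N n (fun m => Real.cos (s * yy N n m) - 1) := by ring
      rw [e]
      refine h2.trans ?_
      have h5 : 20 * s ^ 2 / P ≤ 20 * s ^ 2 * (th / 4800) := by
        calc 20 * s ^ 2 / P = 20 * s ^ 2 * (1 / P) := by ring
          _ ≤ _ := by gcongr
      exact n9 (s ^ 2) th _ hs0 hth h5
    have hav := abs_le.1 (ar_sq q N n hq hqN)
    have hup : ar q N n (fun m => Real.cos (s * yy N n m) - 1) ≤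
        -(8 * s ^ 2 * ar q N n (fun m => xx N n m ^ 2)) := by
      rw [← neg_mul, ← ar_mul]
      apply ar_mono
      intro m hm _
      have h1 : |s * yy N n m| ≤ Real.pi := by
        rw [abs_mul]
        have := yy_le N n m hN1 hm
        calc |s| * |yy N n m| ≤ 1 * Real.pi :=
              mul_le_mul (by linarith) this (abs_nonneg _) (by norm_num)
          _ = _ := one_mul _
      have h2 := Real.cos_le_one_sub_mul_cos_sq h1
      have h3 : 2 / Real.pi ^ 2 * (s * yy N n m) ^ 2 = 8 * s ^ 2 * xx N n m ^ 2 := by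
        unfold yy; field_simp; ring
      linarith
    have hlo : -(20 * s ^ 2 * ar q N n (fun m => xx N n m ^ 2)) ≤
        ar q N n (fun m => Real.cos (s * yy N n m) - 1) := by
      rw [← neg_mul, ← ar_mul]
      apply ar_mono
      intro m hm _
      have h2 := Real.one_sub_sq_div_two_le_cos (x := s * yy N n m)
      have h3 : (s * yy N n m) ^ 2 / 2 = (2 * Real.pi ^ 2) * (s ^ 2 * xx N n m ^ 2) := by
        unfold yy; ring
      have h4 : (2 * Real.pi ^ 2) * (s ^ 2 * xx N n m ^ 2) ≤ 20 * (s ^ 2 * xx N n m ^ 2) := by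
        gcongr; linarith [pi_sq_le]
      linarith
    have hre' := abs_le.1 hre
    have hxs : s ^ 2 * (64 / 100) ≤ 8 * s ^ 2 * ar q N n (fun m => xx N n m ^ 2) :=
      n10 _ _ hs0 (by linarith [hav.1])
    have hxl : 20 * s ^ 2 * ar q N n (fun m => xx N n m ^ 2) ≤ s ^ 2 * (175 / 100) :=
      n11 _ _ hs0 (by linarith [hav.2])
    have hst : 0 ≤ s ^ 2 * th := mul_nonneg hs0 hth.le
    have ha1 : E.re ≤ th * (1 - 58 / 100 * s ^ 2) := by
      have : th * ar q N n (fun m => Real.cos (s * yy N n m) - 1) ≤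
          th * (-(s ^ 2 * (64 / 100))) := by gcongr; linarith
      linarith [hre'.2]
    have ha2 : -(th * (1 - 58 / 100 * s ^ 2)) ≤ E.re := by
      have : th * (-(s ^ 2 * (175 / 100))) ≤
          th * ar q N n (fun m => Real.cos (s * yy N n m) - 1) := by gcongr; linarith
      have h5 : th * s ^ 2 ≤ th * (9 / 16) := by gcongr
      linarith [hre'.1]
    -- the imaginary part
    have him : |E.im| ≤ th * |s| / 20 := by
      have h1 := hUNI (fun m => ei (s * yy N n m) - 1) (4 * |s|) (7 * |s| / P)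
        (by
          intro m hm
          have := ei_sub (s * yy N n m) 0
          rw [ei_zero, sub_zero, abs_mul] at this
          refine this.trans ?_
          rw [mul_comm]
          exact mul_le_mul_of_nonneg_right (by linarith [yy_le N n m hN1 hm]) (abs_nonneg _))
        (by positivity)
        (by
          intro j hj m hm m' hm'
          rw [sub_sub_sub_cancel_right]
          refine (ei_sub _ _).trans ?_
          rw [← mul_sub, abs_mul]
          calc |s| * |yy N n m - yy N n m'| ≤ |s| * (2 * Real.pi / P) :=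
                mul_le_mul_of_nonneg_left (yy_piece P L n j m m' hP1' hL1 hm hm')
                  (abs_nonneg _)
            _ ≤ |s| * (7 / P) := by gcongr; linarith
            _ = _ := by ring)
      have h2 := (Complex.abs_im_le_norm _).trans h1
      have h3 : ac q N n (fun m => G m * (ei (s * yy N n m) - 1)) = E - th := by
        rw [hE, ← hac, ← ac_sub]
        apply ac_congr
        intro m _ _
        ring
      have h4 : (ac q N n (fun m => ei (s * yy N n m) - 1)).im =
          -ar q N n (fun m => Real.sin (s * yy N n m)) := by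
        have e : ∀ F : ℕ → ℂ, (ac q N n F).im = ar q N n (fun m => (F m).im) := by
          intro F
          have h := ac_re q N n (fun m => -Complex.I * F m)
          rw [ac_mul] at h
          simpa using h
        rw [e, ← neg_one_mul, ← ar_mul]
        apply ar_congr
        intro m _ _
        simp [ei_im]
      rw [h3, Complex.sub_im, Complex.sub_im, Complex.im_ofReal_mul, h4, Complex.ofReal_im,
        sub_zero] at h2
      have h5 : |ar q N n (fun m => Real.sin (s * yy N n m))| ≤ 7 * |s| * (q / N) := by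
        have := ar_odd q N n hq hqN (fun x => Real.sin (s * (2 * Real.pi * x))) (7 * |s|)
          (by positivity)
          (by intro x; rw [← Real.sin_neg]; congr 1; ring)
          (by
            intro x y _ _
            have h6 := Real.abs_sin_sub_sin_le (s * (2 * Real.pi * x)) (s * (2 * Real.pi * y))
            refine h6.trans ?_
            rw [show s * (2 * Real.pi * x) - s * (2 * Real.pi * y) =
              (2 * Real.pi) * (s * (x - y)) by ring, abs_mul (2 * Real.pi), abs_mul s,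
              abs_of_pos (by positivity : (0:ℝ) < 2 * Real.pi)]
            exact n12 _ _ (abs_nonneg s) (abs_nonneg (x - y)))
        exact this
      have h7 : th * |ar q N n (fun m => Real.sin (s * yy N n m))| ≤ 1 * (7 * |s| * (th / 1680)) := by
        apply mul_le_mul hth1 (h5.trans (by gcongr)) (abs_nonneg _) (by norm_num)
      have h8 : 7 * |s| / P ≤ 7 * |s| * (th / 4800) := by
        calc 7 * |s| / P = 7 * |s| * (1 / P) := by ring
          _ ≤ _ := by gcongr
      have h9 : |E.im| ≤ |E.im - th * (-ar q N n (fun m => Real.sin (s * yy N n m)))| +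
          th * |ar q N n (fun m => Real.sin (s * yy N n m))| := by
        have h10 : |th * (-ar q N n (fun m => Real.sin (s * yy N n m)))| =
            th * |ar q N n (fun m => Real.sin (s * yy N n m))| := by
          rw [abs_mul, abs_neg, abs_of_pos hth]
        rw [← h10]
        calc |E.im| = |(E.im - th * (-ar q N n (fun m => Real.sin (s * yy N n m)))) +
              th * (-ar q N n (fun m => Real.sin (s * yy N n m)))| := by congr 1; ring
          _ ≤ _ := abs_add_le _ _
      exact n13 th |s| _ _ _ hth (abs_nonneg s) h9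
        (h2.trans (by linarith)) h7
    have hfin := num_small th s E.re E.im hth hs1.le ha1 ha2 him
    have hn : ‖E‖ = √(E.re ^ 2 + E.im ^ 2) := by
      rw [Complex.norm_def, Complex.normSq_apply]
      congr 1; ring
    rw [hn]
    exact hfin

end Pool.Agent.H6.GSW
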