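import Pool.Agent.H6.GS2.Targets

/-!
# Theorem (G): the difference of the optimal sum and of any sum, statement of the first part
-/

set_option autoImplicit false

open Finset Pool.Agent.H6.N4D Pool.Agent.H93 Pool.Agent.H93.GS Pool.Agent.H6.GS2

namespace Pool.Agent.H6.GSW

/-- BV1. Every exponential of `G` is near to a frequency of `g` (`ι l < g.k`) or far. -/
def T_BV1 : Prop := ∀ th A : ℝ, 0 < th → th ≤ 1 → 0 ≤ A → ∃ (P₀ L₀ : ℕ) (κ C : ℝ), 1 ≤ P₀ ∧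
  1 ≤ L₀ ∧ 0 < κ ∧ κ ≤ 1 ∧ 0 < C ∧ ∀ (lam : ℕ → ℝ) (P L n : ℕ) (g G : Ex),
  (∀ m, |lam m| ≤ 1) → L₀ ≤ L → P₀ ≤ P → Opt th lam 1 (P * L) n g → Dst 1 g →
  gapq th lam 1 P L n ≤ κ ^ 2 → G.nm ≤ A →
  ∃ (ι : ℕ → ℕ) (s : ℕ → ℝ) (b : ℕ → ℤ),
    (∀ l < G.k, ι l < g.k →
      G.a l = g.a (ι l) + b l + s l / ((P * L : ℕ) : ℝ) ∧ |s l| ≤ 1) ∧
    (∑ i ∈ range g.k, ‖g.c i - ∑ l ∈ (range G.k).filter (fun l => ι l = i),
        ctr (P * L) n (G.c l) (s l)‖ +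
      ∑ l ∈ (range G.k).filter (fun l => ι l < g.k), ‖G.c l‖ * |s l| +
      ∑ l ∈ (range G.k).filter (fun l => ¬ ι l < g.k), ‖G.c l‖) ^ 2 ≤
      C * (En th lam 1 (P * L) n - J th lam 1 (P * L) n G)

end Pool.Agent.H6.GSW
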