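import Pool.Agent.H6.GS2.Targets
import Pool.Agent.H6.GS2.Bas

/-!
# Theorem (G): averages over the multiples of a number in a window
-/

set_option autoImplicit false

open Finset Pool.Agent.H6.N4D Pool.Agent.H93 Pool.Agent.H93.GS Pool.Agent.H6.GS2

namespace Pool.Agent.H6.GSW

/-- the coordinate on the window -/
noncomputable def xx (N n m : ℕ) : ℝ := ((m : ℝ) - n - (N : ℝ) / 2) / N

lemma filter_image (q N n : ℕ) (hq : 1 ≤ q) :
    (Ioc n (n + N)).filter (fun m => q ∣ m) = (Ioc (n / q) ((n + N) / q)).image (fun k => q * k) := by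
  ext m
  simp only [mem_filter, mem_Ioc, mem_image]
  constructor
  · rintro ⟨⟨h1, h2⟩, k, rfl⟩
    refine ⟨k, ⟨?_, ?_⟩, rfl⟩
    · exact Nat.div_lt_of_lt_mul h1
    · rw [Nat.le_div_iff_mul_le (by omega)]; linarith [mul_comm k q]
  · rintro ⟨k, ⟨h1, h2⟩, rfl⟩
    refine ⟨⟨?_, ?_⟩, dvd_mul_right _ _⟩
    · rw [Nat.div_lt_iff_lt_mul (by omega)] at h1; linarith [mul_comm k q]
    · rw [Nat.le_div_iff_mul_le (by omega)] at h2; linarith [mul_comm k q]

lemma sum_filter_eq {E : Type} [AddCommMonoid E] (q N n : ℕ) (hq : 1 ≤ q) (F : ℕ → E) :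
    ∑ m ∈ (Ioc n (n + N)).filter (fun m => q ∣ m), F m =
      ∑ k ∈ Ioc (n / q) ((n + N) / q), F (q * k) := by
  rw [filter_image q N n hq, sum_image]
  intro a _ b _ h
  exact Nat.eq_of_mul_eq_mul_left (by omega) h

lemma sum_Ioc_range {E : Type} [AddCommMonoid E] (a c : ℕ) (F : ℕ → E) :
    ∑ k ∈ Ioc a (a + c), F k = ∑ j ∈ range c, F (a + 1 + j) := by
  induction c with
  | zero => simp
  | succ c ih =>
    rw [← add_assoc, sum_Ioc_succ_top (by omega), ih, sum_range_succ]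
    congr 2; ring

/-- the number of the multiples -/
noncomputable def cc (q N n : ℕ) : ℕ := (n + N) / q - n / q

lemma cc_spec (q N n : ℕ) (hq : 1 ≤ q) : (n + N) / q = n / q + cc q N n := by
  unfold cc
  have : n / q ≤ (n + N) / q := Nat.div_le_div_right (by omega)
  omega

lemma ar_eq (q N n : ℕ) (hq : 1 ≤ q) (F : ℕ → ℝ) :
    ar q N n F = (∑ j ∈ range (cc q N n), F (q * (n / q + 1 + j))) * q / N := by
  unfold ar
  rw [sum_filter_eq q N n hq, cc_spec q N n hq, sum_Ioc_range]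

lemma first_lt (q n : ℕ) (hq : 1 ≤ q) : (n : ℝ) < q * ((n / q : ℕ) + 1) ∧
    (q : ℝ) * ((n / q : ℕ) : ℝ) ≤ n := by
  constructor
  · have := Nat.lt_mul_div_succ n (show 0 < q by omega)
    exact_mod_cast this
  · exact_mod_cast Nat.mul_div_le n q

lemma last_le (q N n : ℕ) (hq : 1 ≤ q) :
    (q : ℝ) * ((n / q : ℕ) + cc q N n) ≤ n + N ∧
    (n : ℝ) + N < q * ((n / q : ℕ) + cc q N n + 1) := by
  have h1 := cc_spec q N n hq
  have h2 := first_lt q (n + N) hq
  rw [h1] at h2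
  push_cast at h2
  exact ⟨h2.2, h2.1⟩

lemma cc_bound (q N n : ℕ) (hq : 1 ≤ q) : |(cc q N n : ℝ) * q - N| ≤ q := by
  have h1 := first_lt q n hq
  have h2 := last_le q N n hq
  rw [abs_le]
  constructor <;> nlinarith [h1.1, h1.2, h2.1, h2.2]

lemma abs_ar_one_sub (q N n : ℕ) (hq : 1 ≤ q) (hN : 1 ≤ N) :
    |ar q N n (fun _ => 1) - 1| ≤ q / N := by
  have hN' : (0 : ℝ) < N := by exact_mod_cast hN
  rw [ar_eq q N n hq, sum_const, card_range, nsmul_eq_mul, mul_one]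
  have : (cc q N n : ℝ) * q / N - 1 = ((cc q N n : ℝ) * q - N) / N := by field_simp
  rw [this, abs_div, abs_of_pos hN']
  gcongr
  exact cc_bound q N n hq

lemma xx_le (N n m : ℕ) (hN : 1 ≤ N) (hm : m ∈ Ioc n (n + N)) : |xx N n m| ≤ 1 / 2 := by
  have hN' : (0 : ℝ) < N := by exact_mod_cast hN
  rw [mem_Ioc] at hm
  have h1 : (n : ℝ) < m := by exact_mod_cast hm.1
  have h2 : (m : ℝ) ≤ n + N := by exact_mod_cast hm.2
  unfold xx
  rw [abs_div, abs_of_pos hN', div_le_iff₀ hN', abs_le]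
  constructor <;> linarith

lemma mem_window (q N n j : ℕ) (hq : 1 ≤ q) (hj : j < cc q N n) :
    q * (n / q + 1 + j) ∈ Ioc n (n + N) := by
  have h1 : n / q + 1 + j ∈ Ioc (n / q) ((n + N) / q) := by
    rw [mem_Ioc, cc_spec q N n hq]; omega
  have h2 : q * (n / q + 1 + j) ∈ (Ioc (n / q) ((n + N) / q)).image (fun k => q * k) :=
    mem_image_of_mem _ h1
  rw [← filter_image q N n hq] at h2
  exact (mem_filter.1 h2).1

/-- averages of odd functions are small -/
lemma ar_odd (q N n : ℕ) (hq : 1 ≤ q) (hN : q ≤ N) (Φ : ℝ → ℝ) (M : ℝ) (hM : 0 ≤ M)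
    (hodd : ∀ x, Φ (-x) = -Φ x)
    (hl : ∀ x y, |x| ≤ 1 / 2 → |y| ≤ 1 / 2 → |Φ x - Φ y| ≤ M * |x - y|) :
    |ar q N n (fun m => Φ (xx N n m))| ≤ M * (q / N) := by
  have hN1 : 1 ≤ N := hq.trans hN
  have hN' : (0 : ℝ) < N := by exact_mod_cast hN1
  have hq' : (0 : ℝ) < q := by exact_mod_cast hq
  have hqN : (q : ℝ) / N ≤ 1 := by rw [div_le_one hN']; exact_mod_cast hN
  rw [ar_eq q N n hq]
  set c := cc q N n with hc
  set y : ℕ → ℝ := fun j => xx N n (q * (n / q + 1 + j)) with hy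
  have h1 := first_lt q n hq
  have h2 := last_le q N n hq
  rw [← hc] at h2
  have hmir : ∀ j < c, |y j - (-y (c - 1 - j))| ≤ q / N := by
    intro j hj
    have h3 : ((c - 1 - j : ℕ) : ℝ) = c - 1 - j := by
      rw [Nat.cast_sub (by omega), Nat.cast_sub (by omega)]; push_cast; ring
    have h4 : y j - (-y (c - 1 - j)) =
        (q * (2 * ((n / q : ℕ) : ℝ) + c + 1) - 2 * n - N) / N := by
      simp only [hy, xx]
      push_cast
      rw [h3]
      field_simp
      ring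
    rw [h4, abs_div, abs_of_pos hN']
    gcongr
    rw [abs_le]
    constructor <;> nlinarith [h1.1, h1.2, h2.1, h2.2]
  have hsum : 2 * ∑ j ∈ range c, Φ (y j) = ∑ j ∈ range c, (Φ (y j) - Φ (-y (c - 1 - j))) := by
    rw [sum_sub_distrib]
    have h5 : ∑ j ∈ range c, Φ (-y (c - 1 - j)) = -∑ j ∈ range c, Φ (y j) := by
      rw [← sum_neg_distrib]
      simp only [hodd]
      rw [← sum_range_reflect (fun j => -Φ (y j)) c]
    rw [h5]; ring
  have hb : |∑ j ∈ range c, (Φ (y j) - Φ (-y (c - 1 - j)))| ≤ c * (M * (q / N)) := by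
    calc _ ≤ ∑ j ∈ range c, |Φ (y j) - Φ (-y (c - 1 - j))| := abs_sum_le_sum_abs _ _
      _ ≤ ∑ j ∈ range c, M * (q / N) := by
          apply sum_le_sum
          intro j hj
          rw [mem_range] at hj
          have h6 : |y j| ≤ 1 / 2 := xx_le N n _ hN1 (mem_window q N n j hq (by omega))
          have h7 : |y (c - 1 - j)| ≤ 1 / 2 :=
            xx_le N n _ hN1 (mem_window q N n _ hq (by omega))
          calc _ ≤ M * |y j - (-y (c - 1 - j))| := hl _ _ h6 (by rwa [abs_neg])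
            _ ≤ M * (q / N) := mul_le_mul_of_nonneg_left (hmir j hj) hM
      _ = c * (M * (q / N)) := by rw [sum_const, card_range, nsmul_eq_mul]
  have hcq : (c : ℝ) * q / N ≤ 2 := by
    have := (abs_le.1 (cc_bound q N n hq)).2
    rw [← hc] at this
    rw [div_le_iff₀ hN']
    have h8 : (q : ℝ) ≤ N := by exact_mod_cast hN
    linarith
  rw [← hsum, abs_mul, abs_of_pos (two_pos)] at hb
  have hfin : |(∑ j ∈ range c, Φ (y j)) * q / N| = |∑ j ∈ range c, Φ (y j)| * (q / N) := by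
    rw [mul_div_assoc, abs_mul, abs_of_pos (show (0:ℝ) < q / N by positivity)]
  rw [hfin]
  calc |∑ j ∈ range c, Φ (y j)| * (q / N) ≤ (c * (M * (q / N)) / 2) * (q / N) := by
        gcongr; linarith
    _ = (c * q / N) / 2 * (M * (q / N)) := by ring
    _ ≤ 1 * (M * (q / N)) := by gcongr; linarith
    _ = M * (q / N) := one_mul _

lemma ar_x (q N n : ℕ) (hq : 1 ≤ q) (hN : q ≤ N) :
    |ar q N n (fun m => xx N n m)| ≤ q / N := by
  have := ar_odd q N n hq hN (fun x => x) 1 (by norm_num) (fun x => rfl)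
    (fun x y _ _ => by simp)
  simpa using this

lemma pol1 (x : ℝ) (h1 : -(1 / 2) ≤ x) (h2 : x ≤ 1 / 2) :
    |x ^ 2 + x / 2 + 1 / 4| ≤ 3 / 4 := by
  have h3 : x ^ 2 ≤ 1 / 4 := by nlinarith
  rw [abs_le]
  constructor
  · nlinarith [sq_nonneg x]
  · linarith

lemma pol2 (x : ℝ) (h1 : -(3 / 2) ≤ x) (h2 : x ≤ -(1 / 2)) :
    |x ^ 2 - x / 2 + 1 / 4| ≤ 13 / 4 := by
  have h3 : x ^ 2 ≤ 9 / 4 := by nlinarith
  rw [abs_le]
  constructor
  · nlinarith [sq_nonneg x]
  · linarith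

/-- the second moment -/
lemma ar_sq (q N n : ℕ) (hq : 1 ≤ q) (hN : q ≤ N) :
    |ar q N n (fun m => xx N n m ^ 2) - 1 / 12| ≤ 4 * (q / N) := by
  have hN1 : 1 ≤ N := hq.trans hN
  have hN' : (0 : ℝ) < N := by exact_mod_cast hN1
  have hq' : (0 : ℝ) < q := by exact_mod_cast hq
  have hqN : (q : ℝ) / N ≤ 1 := by rw [div_le_one hN']; exact_mod_cast hN
  have hx := ar_x q N n hq hN
  have ho := abs_ar_one_sub q N n hq hN1
  rw [ar_eq q N n hq] at hx ho ⊢
  rw [sum_const, card_range, nsmul_eq_mul, mul_one] at ho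
  set c := cc q N n with hc
  set h : ℝ := q / N with hh
  have hh0 : 0 < h := by positivity
  set z : ℕ → ℝ := fun j => ((q : ℝ) * ((n / q : ℕ) + j) - n - N / 2) / N with hz
  have hyz : ∀ j : ℕ, xx N n (q * (n / q + 1 + j)) = z (j + 1) := by
    intro j
    simp only [hz, xx]
    push_cast
    ring
  have hstep : ∀ j : ℕ, z (j + 1) = z j + h := by
    intro j
    simp only [hz, hh]
    push_cast
    field_simp
    ring
  have h1 := first_lt q n hq
  have h2 := last_le q N n hq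
  rw [← hc] at h2
  have hz0 : z 0 ≤ -(1 / 2) ∧ -(1 / 2) - h ≤ z 0 := by
    have e : z 0 = ((q : ℝ) * ((n / q : ℕ) : ℝ) - n) / N - 1 / 2 := by
      simp only [hz]; push_cast; field_simp; ring
    rw [e]
    constructor
    · have : ((q : ℝ) * ((n / q : ℕ) : ℝ) - n) / N ≤ 0 :=
        div_nonpos_of_nonpos_of_nonneg (by linarith [h1.2]) hN'.le
      linarith
    · have : -h ≤ ((q : ℝ) * ((n / q : ℕ) : ℝ) - n) / N := by
        rw [hh, ← neg_div]
        gcongr
        nlinarith [h1.1]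
      linarith
  have hzc : z c ≤ 1 / 2 ∧ 1 / 2 - h ≤ z c := by
    have e : z c = ((q : ℝ) * ((n / q : ℕ) + c) - n - N) / N + 1 / 2 := by
      simp only [hz]; field_simp; ring
    rw [e]
    constructor
    · have : ((q : ℝ) * ((n / q : ℕ) + c) - n - N) / N ≤ 0 :=
        div_nonpos_of_nonpos_of_nonneg (by linarith [h2.1]) hN'.le
      linarith
    · have : -h ≤ ((q : ℝ) * ((n / q : ℕ) + c) - n - N) / N := by
        rw [hh, ← neg_div]
        gcongr
        nlinarith [h2.2]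
      linarith
  have htel : ∀ k : ℕ, z k ^ 3 - z 0 ^ 3 = 3 * h * ∑ j ∈ range k, z (j + 1) ^ 2 -
      3 * h ^ 2 * ∑ j ∈ range k, z (j + 1) + k * h ^ 3 := by
    intro k
    induction k with
    | zero => simp
    | succ k ih =>
      rw [sum_range_succ, sum_range_succ]
      have e : z k = z (k + 1) - h := by rw [hstep]; ring
      have e2 : z k ^ 3 = z (k + 1) ^ 3 - 3 * h * z (k + 1) ^ 2 + 3 * h ^ 2 * z (k + 1) -
          h ^ 3 := by rw [e]; ring
      push_cast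
      linear_combination ih - e2
  simp only [hyz] at hx ⊢
  have hT := htel c
  have hS1 : (∑ j ∈ range c, z (j + 1)) * q / N = h * ∑ j ∈ range c, z (j + 1) := by
    rw [hh]; ring
  have hS2 : (∑ j ∈ range c, z (j + 1) ^ 2) * q / N = h * ∑ j ∈ range c, z (j + 1) ^ 2 := by
    rw [hh]; ring
  have hS0 : (c : ℝ) * q / N = c * h := by rw [hh]; ring
  rw [hS1] at hx
  rw [hS0] at ho
  rw [hS2]
  set S1 := ∑ j ∈ range c, z (j + 1)
  set S2 := ∑ j ∈ range c, z (j + 1) ^ 2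
  have hx' := abs_le.1 hx
  have ho' := abs_le.1 ho
  have hc3 : |z c ^ 3 - 1 / 8| ≤ 3 / 4 * h := by
    have e : z c ^ 3 - 1 / 8 = (z c - 1 / 2) * (z c ^ 2 + z c / 2 + 1 / 4) := by ring
    rw [e, abs_mul]
    have a1 : |z c - 1 / 2| ≤ h := by rw [abs_le]; constructor <;> linarith [hzc.1, hzc.2]
    have a2 : |z c ^ 2 + z c / 2 + 1 / 4| ≤ 3 / 4 :=
      pol1 _ (by linarith [hzc.2]) hzc.1
    calc _ ≤ h * (3 / 4) := mul_le_mul a1 a2 (abs_nonneg _) hh0.le
      _ = _ := by ring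
  have h03 : |z 0 ^ 3 + 1 / 8| ≤ 13 / 4 * h := by
    have e : z 0 ^ 3 + 1 / 8 = (z 0 + 1 / 2) * (z 0 ^ 2 - z 0 / 2 + 1 / 4) := by ring
    rw [e, abs_mul]
    have a1 : |z 0 + 1 / 2| ≤ h := by rw [abs_le]; constructor <;> linarith [hz0.1, hz0.2]
    have a2 : |z 0 ^ 2 - z 0 / 2 + 1 / 4| ≤ 13 / 4 :=
      pol2 _ (by linarith [hz0.2]) hz0.1
    calc _ ≤ h * (13 / 4) := mul_le_mul a1 a2 (abs_nonneg _) hh0.le
      _ = _ := by ring
  have hc3' := abs_le.1 hc3
  have h03' := abs_le.1 h03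
  have hfin : h * S2 - 1 / 12 = (z c ^ 3 - 1 / 8) / 3 - (z 0 ^ 3 + 1 / 8) / 3 +
      h * (h * S1) - c * h * h ^ 2 / 3 := by
    linear_combination (-1 / 3) * hT
  have b1 : |h * (h * S1)| ≤ h := by
    rw [abs_mul, abs_of_pos hh0]
    calc h * |h * S1| ≤ h * h := mul_le_mul_of_nonneg_left hx hh0.le
      _ ≤ h * 1 := by gcongr
      _ = h := mul_one h
  have b1' := abs_le.1 b1
  have b2 : c * h * h ^ 2 / 3 ≤ 2 / 3 * h := by
    have h3 : c * h ≤ 2 := by linarith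
    have h2' : h ^ 2 ≤ h := by nlinarith
    have h4 : c * h * h ^ 2 ≤ 2 * h := by
      apply mul_le_mul h3 h2' (by positivity) (by norm_num)
    linarith
  have b3 : 0 ≤ c * h * h ^ 2 / 3 := by positivity
  rw [hfin]
  generalize c * h * h ^ 2 / 3 = t3 at b2 b3 ⊢
  generalize h * (h * S1) = t2 at b1' ⊢
  generalize z c ^ 3 = t1 at hc3' ⊢
  generalize z 0 ^ 3 = t0 at h03' ⊢
  rw [abs_le]
  constructor
  · linarith [hc3'.1, h03'.2, b1'.1]
  · linarith [hc3'.2, h03'.1, b1'.2]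

end Pool.Agent.H6.GSW
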